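import Pool.Agent.Helper16.AZ.Stmts

set_option autoImplicit false

open Finset Filter MeasureTheory Topology
open scoped ComplexConjugate InnerProductSpace Kronecker

namespace Pool.Agent.Helper16.AZ

/-- a unitary matrix reindexed -/
theorem xpr_reindex {m n : Type} [Fintype m] [DecidableEq m] [Fintype n] [DecidableEq n]
    (e : m ≃ n) {U : Matrix n n ℂ} (hU : U ∈ Matrix.unitaryGroup n ℂ) :
    U.submatrix e e ∈ Matrix.unitaryGroup m ℂ := by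
  rw [Matrix.mem_unitaryGroup_iff] at hU ⊢
  rw [Matrix.star_eq_conjTranspose, Matrix.conjTranspose_submatrix, Matrix.submatrix_mul_equiv,
    ← Matrix.star_eq_conjTranspose, hU, Matrix.submatrix_one_equiv]

theorem xpr_mul_sub {a a' b b' : ℂ} (hb : ‖b‖ ≤ 1) (ha' : ‖a'‖ ≤ 1) :
    ‖a * b - a' * b'‖ ≤ ‖a - a'‖ + ‖b - b'‖ := by
  have h : a * b - a' * b' = (a - a') * b + a' * (b - b') := by ring
  rw [h]
  refine (norm_add_le _ _).trans ?_
  rw [norm_mul, norm_mul]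
  have h1 : ‖a - a'‖ * ‖b‖ ≤ ‖a - a'‖ * 1 := mul_le_mul_of_nonneg_left hb (norm_nonneg _)
  have h2 : ‖a'‖ * ‖b - b'‖ ≤ 1 * ‖b - b'‖ := mul_le_mul_of_nonneg_right ha' (norm_nonneg _)
  linarith

theorem xpr_prod (A : Type) [CommCStarAlgebra A] (r : ℕ) (α : A →⋆ₐ[ℂ] A)
    (π : C(T r, ℂ) →⋆ₐ[ℂ] A) (d d' : ℕ) (Φ : C(T r, Matrix (Fin d) (Fin d) ℂ))
    (Φ' : C(T r, Matrix (Fin d') (Fin d') ℂ)) (v : Fin d → A) (v' : Fin d' → A)
    (h : Fam α π Φ v) (h' : Fam α π Φ' v') (i : Fin d) (i' : Fin d') :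
    ∃ (e : ℕ) (Ψ : C(T r, Matrix (Fin e) (Fin e) ℂ)) (w : Fin e → A),
    Fam α π Ψ w ∧ ∃ k, w k = v i * v' i' := by
  obtain ⟨hu, hl, ha⟩ := h
  obtain ⟨hu', hl', ha'⟩ := h'
  let ε : Fin (d * d') ≃ Fin d × Fin d' := finProdFinEquiv.symm
  have hc : Continuous fun θ => ((Φ θ) ⊗ₖ (Φ' θ)).submatrix ε ε := by
    refine continuous_matrix fun a b => ?_
    show Continuous fun θ => Φ θ (ε a).1 (ε b).1 * Φ' θ (ε a).2 (ε b).2
    fun_prop
  refine ⟨d * d', ⟨fun θ => ((Φ θ) ⊗ₖ (Φ' θ)).submatrix ε ε, hc⟩,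
    fun k => v (ε k).1 * v' (ε k).2, ⟨?_, ?_, ?_⟩, finProdFinEquiv (i, i'), ?_⟩
  · intro θ
    exact xpr_reindex ε (Matrix.kronecker_mem_unitary (hu θ) (hu' θ))
  · intro a b η hη
    obtain ⟨t, ht0, ht1, ht⟩ := hl (ε a).1 (ε b).1 (η / 2) (by positivity)
    obtain ⟨t', ht0', ht1', ht'⟩ := hl' (ε a).2 (ε b).2 (η / 2) (by positivity)
    refine ⟨min t t', lt_min ht0 ht0', (min_le_left _ _).trans_lt ht1, ?_⟩
    intro u hu0 hut θ θ' hd
    have e1 := ht u hu0 (hut.trans (min_le_left _ _)) θ θ' hd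
    have e2 := ht' u hu0 (hut.trans (min_le_right _ _)) θ θ' hd
    show ‖Φ θ (ε a).1 (ε b).1 * Φ' θ (ε a).2 (ε b).2 -
      Φ θ' (ε a).1 (ε b).1 * Φ' θ' (ε a).2 (ε b).2‖ ≤ η / (Real.log u) ^ 2
    have e3 := xpr_mul_sub (a := Φ θ (ε a).1 (ε b).1) (b' := Φ' θ' (ε a).2 (ε b).2)
      (entry_norm_bound_of_unitary (hu' θ) (ε a).2 (ε b).2)
      (entry_norm_bound_of_unitary (hu θ') (ε a).1 (ε b).1)
    have e4 : η / (Real.log u) ^ 2 = η / 2 / (Real.log u) ^ 2 + η / 2 / (Real.log u) ^ 2 := by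
      rw [← add_div]; congr 1; ring
    rw [e4]
    exact e3.trans (add_le_add e1 e2)
  · intro k
    show α (v (ε k).1 * v' (ε k).2) = _
    rw [map_mul, ha, ha', Finset.sum_mul_sum, ← Finset.sum_product', Finset.univ_product_univ]
    refine (ε.sum_comp _).symm.trans ?_
    refine Finset.sum_congr rfl fun j _ => ?_
    have hπ : (π ⟨fun θ => ((Φ θ) ⊗ₖ (Φ' θ)).submatrix ε ε k j, by fun_prop⟩ : A) =
        π ⟨fun θ => Φ θ (ε k).1 (ε j).1, by fun_prop⟩ *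
          π ⟨fun θ => Φ' θ (ε k).2 (ε j).2, by fun_prop⟩ := by
      rw [← map_mul]
      rfl
    show _ = (π ⟨fun θ => ((Φ θ) ⊗ₖ (Φ' θ)).submatrix ε ε k j, _⟩ : A) *
      (v (ε j).1 * v' (ε j).2)
    rw [hπ]
    ring
  · show v (ε (finProdFinEquiv (i, i'))).1 * v' (ε (finProdFinEquiv (i, i'))).2 = v i * v' i'
    simp [ε]

theorem xpr_star (A : Type) [CommCStarAlgebra A] (r : ℕ) (α : A →⋆ₐ[ℂ] A)
    (π : C(T r, ℂ) →⋆ₐ[ℂ] A) (d : ℕ) (Φ : C(T r, Matrix (Fin d) (Fin d) ℂ)) (v : Fin d → A)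
    (h : Fam α π Φ v) (i : Fin d) :
    ∃ (e : ℕ) (Ψ : C(T r, Matrix (Fin e) (Fin e) ℂ)) (w : Fin e → A),
    Fam α π Ψ w ∧ ∃ k, w k = star (v i) := by
  obtain ⟨hu, hl, ha⟩ := h
  have hc : Continuous fun θ => (Φ θ).map star := by
    refine continuous_matrix fun a b => ?_
    show Continuous fun θ => star (Φ θ a b)
    fun_prop
  refine ⟨d, ⟨fun θ => (Φ θ).map star, hc⟩, fun k => star (v k), ⟨?_, ?_, ?_⟩, i, rfl⟩
  · intro θ
    exact Matrix.map_star_mem_unitaryGroup_iff.2 (hu θ)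
  · intro a b η hη
    obtain ⟨t, ht0, ht1, ht⟩ := hl a b η hη
    refine ⟨t, ht0, ht1, ?_⟩
    intro u hu0 hut θ θ' hd
    have e1 := ht u hu0 hut θ θ' hd
    show ‖star (Φ θ a b) - star (Φ θ' a b)‖ ≤ η / (Real.log u) ^ 2
    rw [← star_sub, norm_star]
    exact e1
  · intro k
    rw [map_star, ha, star_sum]
    refine Finset.sum_congr rfl fun j _ => ?_
    rw [star_mul, mul_comm, ← map_star]
    rfl

theorem st_XPR : ST_XPR := by
  intro A _ r α π d d' Φ Φ' v v' h h'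
  exact ⟨fun i i' => xpr_prod A r α π d d' Φ Φ' v v' h h' i i',
    fun i => xpr_star A r α π d Φ v h i⟩

end Pool.Agent.Helper16.AZ
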